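import Pool.Agent.V11276.PowBin2

/-!
# Weighted sums of fourth-power binomial sums modulo `2 n`

For all `n ≥ 1` the number `2 n` divides `∑_{k < n} (3 k + 2) ∑_{j ≤ k} binom(k, j)^4`.
-/

set_option autoImplicit false

namespace Pool.Agent.Results.MP_7c66d8_nt.FourthPowers

/-- For all `n ≥ 1`, `2 n` divides `∑_{k < n} (3 k + 2) f_k^(4)`. -/
theorem result (n : ℕ) (_hn : 1 ≤ n) :
    (2 * n) ∣ ∑ k ∈ Finset.range n, (3 * k + 2) * ∑ j ∈ Finset.range (k + 1), (k.choose j) ^ 4 := by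
  have h := Pool.Agent.V11276.PowBin.two_dvd n 4
  have h2 : ∀ k : ℕ, (-1 : ℤ) ^ (4 * k) = 1 := fun k => by
    rw [pow_mul]; norm_num
  simp only [h2, one_mul] at h
  exact_mod_cast h

end Pool.Agent.Results.MP_7c66d8_nt.FourthPowers
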